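import Pool.Agent.H928.BX.Main

/-!
# Bounded kernels whose Bergman extremal function is not in `BMOA` (Q1 of MP_7d928b_an is false)

For every `1 < p < 2` there is a nonzero bounded kernel `k` whose `A^p` extremal function `F` is not
even a Bloch function, hence not in `BMOA`. So the implication `k ∈ H^∞ → F ∈ BMOA` of Q1 fails.

Idea. Up to a positive factor the kernel of `F` is the Bergman projection of `|F|^(p-2) F`. Start with
`F = const` and repeat steps `F ↦ F exp(z^n B)`, `n` huge, `B` an outer function with prescribed small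
modulus. On the circle the pair `(k, F)` then moves by `(k + |F|^(p-2) F G(ω), F e^ω)`, `ω = z^n B`,
and every phase of `ω` occurs near every boundary point. For small `ω` this is a control system:
moving `log F` by a real amount changes `|F|^(p-1)` and moves `k` along a line, moving it by an
imaginary amount rotates and moves `k` along a circle, and since `p ≠ 2` small loops of these moves
shift `k` without changing `F`. So `F` can be rotated at fixed `k`, and then moved radially while `k`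
crosses the unit disc in the right direction, which increases `|F|^(p-1)` by a fixed amount; repeating
this, `|F|` becomes arbitrarily large while `|k| < 1`. There a step which changes `k` by about one
changes `F` by about `|F|^(2-p)`, which is unbounded as `p < 2`.
-/

set_option autoImplicit false

open MeasureTheory Set Filter Topology Complex Metric
open scoped ComplexConjugate

namespace Pool.Agent.Results.MP_7d928b_an.BoundedKernelNotBMOA

/-- Area measure on the unit disc. -/
noncomputable def dA : Measure ℂ := volume.restrict (ball (0 : ℂ) 1)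

/-- `f` belongs to the Bergman space `A^p`. -/
def InBergman (p : ℝ) (f : ℂ → ℂ) : Prop :=
  DifferentiableOn ℂ f (ball 0 1) ∧ Integrable (fun z => ‖f z‖ ^ p) dA

/-- The norm of `A^p`. -/
noncomputable def bergmanNorm (p : ℝ) (f : ℂ → ℂ) : ℝ := (∫ z, ‖f z‖ ^ p ∂dA) ^ (1 / p)

/-- The functional `f ↦ ∫ f conj k dA` with kernel `k`. -/
noncomputable def functional (k f : ℂ → ℂ) : ℂ := ∫ z, f z * conj (k z) ∂dA

/-- `F` is the `A^p` extremal function for the kernel `k`: it has norm one in `A^p` and maximises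
`Re ∫ f conj k dA` among all `f ∈ A^p` of norm one. -/
structure IsExtremal (p : ℝ) (k F : ℂ → ℂ) : Prop where
  mem : InBergman p F
  norm_eq : bergmanNorm p F = 1
  max : ∀ f : ℂ → ℂ, InBergman p f → bergmanNorm p f = 1 →
    (functional k f).re ≤ (functional k F).re

/-- `f` is a bounded analytic function on the disc. -/
def InHInfinity (f : ℂ → ℂ) : Prop :=
  DifferentiableOn ℂ f (ball 0 1) ∧ ∃ M : ℝ, ∀ z ∈ ball (0 : ℂ) 1, ‖f z‖ ≤ M

/-- `f` belongs to the Hardy space `H²`: analytic, with bounded quadratic means on circles. -/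
def InHardyTwo (f : ℂ → ℂ) : Prop :=
  DifferentiableOn ℂ f (ball 0 1) ∧ ∃ C : ℝ, ∀ r : ℝ, 0 < r → r < 1 →
    (2 * Real.pi)⁻¹ * ∫ θ in (0:ℝ)..(2 * Real.pi), ‖f (r * Complex.exp (θ * I))‖ ^ 2 ≤ C

/-- `b` (a `2π`-periodic function of the angle) is the boundary function of `f`: it is square
integrable on the circle and the dilates `θ ↦ f(r e^{iθ})` converge to it in `L²` as `r → 1`. -/
def IsBoundaryFunction (f : ℂ → ℂ) (b : ℝ → ℂ) : Prop :=
  Measurable b ∧ Function.Periodic b (2 * Real.pi) ∧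
    IntervalIntegrable (fun θ => ‖b θ‖ ^ 2) volume 0 (2 * Real.pi) ∧
    Tendsto (fun r : ℝ => ∫ θ in (0:ℝ)..(2 * Real.pi), ‖f (r * Complex.exp (θ * I)) - b θ‖ ^ 2)
      (𝓝[<] 1) (𝓝 0)

/-- `b` has bounded mean oscillation on the unit circle (all arcs, parametrised by the angle). -/
def HasBMO (b : ℝ → ℂ) : Prop :=
  ∃ C : ℝ, ∀ α β : ℝ, α < β → β ≤ α + 2 * Real.pi →
    (β - α)⁻¹ * ∫ θ in α..β, ‖b θ - ((β - α)⁻¹ : ℝ) • ∫ t in α..β, b t‖ ≤ C

/-- `BMOA`: functions in `H²` whose boundary values have bounded mean oscillation. -/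
def InBMOA (f : ℂ → ℂ) : Prop :=
  InHardyTwo f ∧ ∃ b : ℝ → ℂ, IsBoundaryFunction f b ∧ HasBMO b

/-- The Bloch space. -/
def InBloch (f : ℂ → ℂ) : Prop :=
  DifferentiableOn ℂ f (ball 0 1) ∧
    ∃ C : ℝ, ∀ z ∈ ball (0 : ℂ) 1, (1 - ‖z‖ ^ 2) * ‖deriv f z‖ ≤ C

/-- **Q1 is false.** For every `1 < p < 2` there is a nonzero kernel `k ∈ H^∞ ⊂ A^q`,
`q = p/(p-1)`, whose `A^p` extremal function `F` is neither a Bloch function nor in `BMOA`; so the
statement of Q1 (for all `1 < p < ∞`) does not hold. -/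
theorem result :
    (∀ p : ℝ, 1 < p → p < 2 → ∃ k F : ℂ → ℂ, InHInfinity k ∧ InBergman (p / (p - 1)) k ∧
      (∃ z ∈ ball (0 : ℂ) 1, k z ≠ 0) ∧ IsExtremal p k F ∧ ¬ InBloch F ∧ ¬ InBMOA F) ∧
    ¬ (∀ p : ℝ, 1 < p → ∀ k F : ℂ → ℂ, InBergman (p / (p - 1)) k →
      (∃ z ∈ ball (0 : ℂ) 1, k z ≠ 0) → InHInfinity k → IsExtremal p k F → InBMOA F) := by
  have key : ∀ p : ℝ, 1 < p → p < 2 → ∃ k F : ℂ → ℂ, InHInfinity k ∧ InBergman (p / (p - 1)) k ∧
      (∃ z ∈ ball (0 : ℂ) 1, k z ≠ 0) ∧ IsExtremal p k F ∧ ¬ InBloch F ∧ ¬ InBMOA F := by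
    intro p h1 h2
    obtain ⟨k, F, a1, a2, a3, a4, a5, a6⟩ := Pool.Agent.H928.BX.main p h1 h2
    exact ⟨k, F, a1, a2, a3, ⟨a4.mem, a4.norm_eq, a4.max⟩, a5, a6⟩
  refine ⟨key, fun h => ?_⟩
  obtain ⟨k, F, a1, a2, a3, a4, -, a6⟩ := key (3 / 2) (by norm_num) (by norm_num)
  exact a6 (h (3 / 2) (by norm_num) k F a2 a3 a1 a4)

end Pool.Agent.Results.MP_7d928b_an.BoundedKernelNotBMOA
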